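import Mathlib
import Pool.Agent.Hhelper32.Weiss.Final

set_option autoImplicit false

namespace Pool.Agent.Results.MP_8988f3_an.NoEqualEntropyCover

open Filter Topology Set

/-- the translate `(σ^v x)_u = x_{u+v}` of a configuration -/
def translate {d k : ℕ} (v : Fin d → ℤ) (x : (Fin d → ℤ) → Fin k) : (Fin d → ℤ) → Fin k :=
  fun u => x (u + v)

/-- a `ℤ^d`-shift over the alphabet `Fin k`: a nonempty closed set of configurations which is invariant under all
translations (product topology) -/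
def IsShift {d k : ℕ} (X : Set ((Fin d → ℤ) → Fin k)) : Prop :=
  X.Nonempty ∧ IsClosed X ∧ ∀ v : Fin d → ℤ, ∀ x ∈ X, translate v x ∈ X

/-- a shift of finite type: a `ℤ^d`-shift given by a finite window `C` and a set `P` of allowed patterns on `C` -/
def IsSFT {d k : ℕ} (X : Set ((Fin d → ℤ) → Fin k)) : Prop :=
  IsShift X ∧ ∃ (C : Finset (Fin d → ℤ)) (P : Set (C → Fin k)),
    X = {x | ∀ v : Fin d → ℤ, (fun u : C => translate v x u) ∈ P}

/-- `Y` is a factor of `X`: there is a continuous surjective map `X → Y` which commutes with all translations -/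
def IsFactor {d k l : ℕ} (X : Set ((Fin d → ℤ) → Fin k)) (Y : Set ((Fin d → ℤ) → Fin l)) : Prop :=
  ∃ φ : ((Fin d → ℤ) → Fin k) → ((Fin d → ℤ) → Fin l), ContinuousOn φ X ∧ φ '' X = Y ∧
    ∀ v : Fin d → ℤ, ∀ x ∈ X, φ (translate v x) = translate v (φ x)

/-- a sofic shift: a factor of a shift of finite type over some finite alphabet -/
def IsSofic {d k : ℕ} (Y : Set ((Fin d → ℤ) → Fin k)) : Prop :=
  IsShift Y ∧ ∃ (m : ℕ) (X : Set ((Fin d → ℤ) → Fin m)), IsSFT X ∧ IsFactor X Y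

/-- the number of patterns on the cube `{0,…,n-1}^d` which occur in points of `X` -/
noncomputable def patternCount {d k : ℕ} (X : Set ((Fin d → ℤ) → Fin k)) (n : ℕ) : ℕ :=
  {p : (Fin d → Fin n) → Fin k | ∃ x ∈ X, ∀ i, p i = x (fun j => ((i j : ℕ) : ℤ))}.ncard

/-- `X` has topological entropy `h` -/
def HasEntropy {d k : ℕ} (X : Set ((Fin d → ℤ) → Fin k)) (h : ℝ) : Prop :=
  Tendsto (fun n : ℕ => Real.log (patternCount X n) / (n : ℝ) ^ d) atTop (𝓝 h)

open Pool.Agent.Hhelper32.Weiss in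
/-- the entropy exists and is the infimum -/
theorem hasEntropy {k : ℕ} {X : Set ((Fin 2 → ℤ) → Fin k)} (hX : X.Nonempty) (hS : ShiftInv X) :
    HasEntropy X (⨅ n : ℕ, Real.log ((N X (n + 1) : ℕ) : ℝ) / ((n : ℝ) + 1) ^ 2) := by
  set h := ⨅ n : ℕ, Real.log ((N X (n + 1) : ℕ) : ℝ) / ((n : ℝ) + 1) ^ 2 with hh
  have hbdd : BddBelow (Set.range fun n : ℕ =>
      Real.log ((N X (n + 1) : ℕ) : ℝ) / ((n : ℝ) + 1) ^ 2) := by
    refine ⟨0, ?_⟩
    rintro _ ⟨n, rfl⟩
    exact div_nonneg (Real.log_natCast_nonneg _) (by positivity)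
  have hcount : ∀ n : ℕ, patternCount X (n + 1) = N X (n + 1) := fun n => ncard_eq_N X n
  have hmono : ∀ a b : ℕ, a ≤ b → N X a ≤ N X b := by
    intro a b hab
    apply patt_card_le hS 0
    intro v hv
    rw [add_zero]
    rw [mem_sq] at hv ⊢
    have : (a : ℤ) ≤ b := by exact_mod_cast hab
    refine ⟨hv.1, by linarith [hv.2.1], by linarith [hv.2.2]⟩
  unfold HasEntropy
  rw [← tendsto_add_atTop_iff_nat 1]
  simp_rw [hcount]
  rw [Metric.tendsto_atTop]
  intro ε hε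
  -- choose s with value < h + ε/2
  obtain ⟨s, hs⟩ := exists_lt_of_ciInf_lt (show (⨅ n : ℕ,
    Real.log ((N X (n + 1) : ℕ) : ℝ) / ((n : ℝ) + 1) ^ 2) < h + ε / 2 by linarith)
  set A := Real.log ((N X (s + 1) : ℕ) : ℝ) with hA
  have hA0 : 0 ≤ A := Real.log_natCast_nonneg _
  -- for all q : log N (n+1) ≤ (q+1)^2 A when n + 1 ≤ (s+1)(q+1)
  have hup : ∀ n : ℕ, Real.log ((N X (n + 1) : ℕ) : ℝ) ≤
      (((n + 1 : ℕ) / (s + 1) : ℕ) + 1 : ℝ) ^ 2 * A := by
    intro n
    set q := (n + 1) / (s + 1) with hq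
    have h1 : n + 1 ≤ (s + 1) * (q + 1) := by
      have := Nat.lt_mul_div_succ (n + 1) (Nat.succ_pos s)
      simp only [Nat.succ_eq_add_one] at this
      rw [← hq] at this
      exact this.le
    have h2 : N X (n + 1) ≤ N X (s + 1) ^ ((q + 1) ^ 2) :=
      (hmono _ _ h1).trans (N_mul_le hS (s + 1) (q + 1))
    have h3 : (0 : ℝ) < N X (n + 1) := by exact_mod_cast N_pos hX (n + 1)
    have h4 := Real.log_le_log h3 (show ((N X (n + 1) : ℕ) : ℝ) ≤
      ((N X (s + 1) : ℕ) : ℝ) ^ ((q + 1) ^ 2) by exact_mod_cast h2)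
    rw [Real.log_pow] at h4
    push_cast at h4
    exact h4
  have hlow : ∀ n : ℕ, h ≤ Real.log ((N X (n + 1) : ℕ) : ℝ) / ((n : ℝ) + 1) ^ 2 :=
    fun n => ciInf_le hbdd n
  -- upper bound by A (1/(s+1) + 1/(n+1))^2
  have hup2 : ∀ n : ℕ, Real.log ((N X (n + 1) : ℕ) : ℝ) / ((n : ℝ) + 1) ^ 2 ≤
      (1 / ((s : ℝ) + 1) + 1 / ((n : ℝ) + 1)) ^ 2 * A := by
    intro n
    rw [div_le_iff₀ (by positivity)]
    refine (hup n).trans ?_
    have h1 : (((n + 1 : ℕ) / (s + 1) : ℕ) : ℝ) ≤ ((n + 1 : ℕ) : ℝ) / ((s + 1 : ℕ) : ℝ) :=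
      Nat.cast_div_le
    push_cast at h1
    have h2 : (0 : ℝ) ≤ (((n + 1 : ℕ) / (s + 1) : ℕ) : ℝ) := by positivity
    have h3 : (((n + 1 : ℕ) / (s + 1) : ℕ) : ℝ) + 1 ≤
        (1 / ((s : ℝ) + 1) + 1 / ((n : ℝ) + 1)) * ((n : ℝ) + 1) := by
      have : (1 / ((s : ℝ) + 1) + 1 / ((n : ℝ) + 1)) * ((n : ℝ) + 1) =
          ((n : ℝ) + 1) / ((s : ℝ) + 1) + 1 := by field_simp
      rw [this]
      linarith
    calc (((n + 1 : ℕ) / (s + 1) : ℕ) + 1 : ℝ) ^ 2 * A
        ≤ ((1 / ((s : ℝ) + 1) + 1 / ((n : ℝ) + 1)) * ((n : ℝ) + 1)) ^ 2 * A := by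
          gcongr
      _ = (1 / ((s : ℝ) + 1) + 1 / ((n : ℝ) + 1)) ^ 2 * A * ((n : ℝ) + 1) ^ 2 := by ring
  have hlim : Tendsto (fun n : ℕ => (1 / ((s : ℝ) + 1) + 1 / ((n : ℝ) + 1)) ^ 2 * A) atTop
      (𝓝 ((1 / ((s : ℝ) + 1) + 0) ^ 2 * A)) :=
    ((tendsto_const_nhds.add tendsto_one_div_add_atTop_nhds_zero_nat).pow 2).mul_const A
  have hval : (1 / ((s : ℝ) + 1) + 0) ^ 2 * A = A / ((s : ℝ) + 1) ^ 2 := by
    rw [add_zero, div_pow, one_pow]; ring
  rw [hval] at hlim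
  have hev := (tendsto_order.mp hlim).2 (h + ε / 2) hs
  obtain ⟨n0, hn0⟩ := eventually_atTop.mp hev
  refine ⟨n0, ?_⟩
  intro n hn
  have h1 := hn0 n hn
  have h2 := hup2 n
  have h3 := hlow n
  rw [Real.dist_eq, abs_lt]
  push_cast
  constructor
  · linarith
  · linarith

/-- a continuous map commuting with translations is a sliding block code -/
theorem exists_block {d k l : ℕ} [NeZero l] {X : Set ((Fin d → ℤ) → Fin k)} (hX : IsClosed X)
    (hinv : ∀ v : Fin d → ℤ, ∀ x ∈ X, translate v x ∈ X)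
    {φ : ((Fin d → ℤ) → Fin k) → ((Fin d → ℤ) → Fin l)} (hφ : ContinuousOn φ X)
    (hcomm : ∀ v : Fin d → ℤ, ∀ x ∈ X, φ (translate v x) = translate v (φ x)) :
    ∃ (G : Finset (Fin d → ℤ)) (Φ : (G → Fin k) → Fin l),
      ∀ x ∈ X, φ x = fun v => Φ (fun u : G => x ((u : Fin d → ℤ) + v)) := by
  classical
  have hK : IsCompact X := hX.isCompact
  -- cylinders
  have hcyl : ∀ x ∈ X, ∃ I : Finset (Fin d → ℤ), ∀ y ∈ X, (∀ u ∈ I, y u = x u) →
      φ y 0 = φ x 0 := by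
    intro x hx
    have h0 : ContinuousOn (fun y => φ y 0) X := (continuous_apply 0).comp_continuousOn hφ
    have h1 := h0 x hx
    have h2 : {c : Fin l | c = φ x 0} ∈ 𝓝 (φ x 0) := by
      have : {c : Fin l | c = φ x 0} = {φ x 0} := by ext c; simp
      rw [this]
      exact (isOpen_discrete _).mem_nhds rfl
    have h3 := h1 h2
    rw [mem_map, mem_nhdsWithin] at h3
    obtain ⟨U, hU, hxU, hUs⟩ := h3
    rw [isOpen_pi_iff] at hU
    obtain ⟨I, u, hu, hIu⟩ := hU x hxU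
    refine ⟨I, ?_⟩
    intro y hy hyx
    have h4 : y ∈ U := by
      apply hIu
      intro a ha
      rw [hyx a ha]
      exact (hu a ha).2
    exact hUs ⟨h4, hy⟩
  choose! I hI using hcyl
  -- open cover
  have hopen : ∀ x : (Fin d → ℤ) → Fin k, IsOpen {y : (Fin d → ℤ) → Fin k | ∀ u ∈ I x, y u = x u} := by
    intro x
    have : {y : (Fin d → ℤ) → Fin k | ∀ u ∈ I x, y u = x u} =
        ((I x : Finset (Fin d → ℤ)) : Set (Fin d → ℤ)).pi (fun u => {x u}) := by
      ext y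
      simp [Set.mem_pi]
    rw [this]
    exact isOpen_set_pi (Finset.finite_toSet _) (fun _ _ => isOpen_discrete _)
  obtain ⟨t, htX, hcov⟩ := hK.elim_nhds_subcover
    (fun x => {y : (Fin d → ℤ) → Fin k | ∀ u ∈ I x, y u = x u})
    (fun x _ => (hopen x).mem_nhds (fun _ _ => rfl))
  set G : Finset (Fin d → ℤ) := t.biUnion I with hG
  have hkey : ∀ y ∈ X, ∀ y' ∈ X, (∀ u ∈ G, y u = y' u) → φ y 0 = φ y' 0 := by
    intro y hy y' hy' hyy
    obtain ⟨x, hxt, hyx⟩ := mem_iUnion₂.mp (hcov hy)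
    have h1 : φ y 0 = φ x 0 := hI x (htX x hxt) y hy hyx
    have h2 : φ y' 0 = φ x 0 := by
      apply hI x (htX x hxt) y' hy'
      intro u hu
      rw [← hyy u (Finset.mem_biUnion.mpr ⟨x, hxt, hu⟩)]
      exact hyx u hu
    rw [h1, h2]
  refine ⟨G, fun p => if h : ∃ x ∈ X, ∀ u : G, x u = p u then φ h.choose 0 else 0, ?_⟩
  intro x hx
  funext v
  have h1 : φ x v = φ (translate v x) 0 := by
    rw [hcomm v x hx]
    simp [translate]
  have hex : ∃ y ∈ X, ∀ u : G, y u = (fun u : G => x ((u : Fin d → ℤ) + v)) u :=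
    ⟨translate v x, hinv v x hx, fun u => rfl⟩
  rw [h1]
  simp only [dif_pos hex]
  apply hkey _ (hinv v x hx) _ hex.choose_spec.1
  intro u hu
  exact (hex.choose_spec.2 ⟨u, hu⟩).symm

/-- a sliding block code is continuous -/
theorem continuous_block {d k l : ℕ} (G : Finset (Fin d → ℤ)) (Φ : (G → Fin k) → Fin l) :
    Continuous (fun (x : (Fin d → ℤ) → Fin k) => fun v : Fin d → ℤ =>
      Φ (fun u : G => x ((u : Fin d → ℤ) + v))) := by
  apply continuous_pi
  intro v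
  have h1 : Continuous (fun (x : (Fin d → ℤ) → Fin k) => fun u : G => x ((u : Fin d → ℤ) + v)) :=
    continuous_pi (fun u => continuous_apply _)
  exact (continuous_of_discreteTopology (f := Φ)).comp h1

/-- a set given by a finite window is closed and translation invariant -/
theorem sft_isClosed {d k : ℕ} (C : Finset (Fin d → ℤ)) (P : Set (C → Fin k)) :
    IsClosed {x : (Fin d → ℤ) → Fin k | ∀ v : Fin d → ℤ, (fun u : C => translate v x u) ∈ P} := by
  have : {x : (Fin d → ℤ) → Fin k | ∀ v : Fin d → ℤ, (fun u : C => translate v x u) ∈ P} =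
      ⋂ v : Fin d → ℤ, (fun x : (Fin d → ℤ) → Fin k => fun u : C => x ((u : Fin d → ℤ) + v)) ⁻¹' P := by
    ext x
    simp [translate]
  rw [this]
  apply isClosed_iInter
  intro v
  have h1 : Continuous (fun (x : (Fin d → ℤ) → Fin k) => fun u : C => x ((u : Fin d → ℤ) + v)) :=
    continuous_pi (fun u => continuous_apply _)
  exact IsClosed.preimage h1 (isClosed_discrete P)

theorem sft_inv {d k : ℕ} (C : Finset (Fin d → ℤ)) (P : Set (C → Fin k)) :
    ∀ w : Fin d → ℤ, ∀ x ∈ {x : (Fin d → ℤ) → Fin k | ∀ v : Fin d → ℤ, (fun u : C => translate v x u) ∈ P},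
      translate w x ∈ {x : (Fin d → ℤ) → Fin k | ∀ v : Fin d → ℤ, (fun u : C => translate v x u) ∈ P} := by
  intro w x hx v
  have h := hx (v + w)
  have e : (fun u : C => translate v (translate w x) u) = fun u : C => translate (v + w) x u := by
    funext u
    simp only [translate]
    congr 1
    abel
  rw [e]
  exact h

open Pool.Agent.Hhelper32.Weiss in
/-- **Weiss' question has a negative answer in dimension two.** There is a sofic `ℤ²`-shift `Y` (on six letters) such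
that every `ℤ²`-shift of finite type which factors onto `Y` has strictly larger topological entropy. -/
theorem result :
    ∃ (Y : Set ((Fin 2 → ℤ) → Fin 6)) (hY : ℝ), IsSofic Y ∧ HasEntropy Y hY ∧
      ∀ (k : ℕ) (X : Set ((Fin 2 → ℤ) → Fin k)), IsSFT X → IsFactor X Y →
        ∃ hX : ℝ, HasEntropy X hX ∧ hY < hX := by
  have hSft : ∀ {m : ℕ} (F : Finset (Fin 2 → ℤ)) (P : Set (F → Fin m)),
      {x : (Fin 2 → ℤ) → Fin m | ∀ v : Fin 2 → ℤ, (fun u : F => translate v x u) ∈ P} = sft P :=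
    fun F P => rfl
  obtain ⟨m, F, P, G, Φ, hYeq⟩ := Yset_sofic
  have hYeq' : Yset = (fun (x : (Fin 2 → ℤ) → Fin m) => fun v : Fin 2 → ℤ =>
      Φ (fun u : G => x ((u : Fin 2 → ℤ) + v))) '' sft P := by
    rw [hYeq]
    ext x
    constructor
    · rintro ⟨y, hy, rfl⟩
      exact ⟨y, hy, rfl⟩
    · rintro ⟨y, hy, rfl⟩
      exact ⟨y, hy, rfl⟩
  have hXne : (sft P).Nonempty := by
    obtain ⟨y, hy⟩ := Yset_nonempty
    rw [hYeq'] at hy
    obtain ⟨x, hx, _⟩ := hy
    exact ⟨x, hx⟩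
  have hXclosed : IsClosed (sft P) := by
    rw [← hSft]; exact sft_isClosed F P
  have hXinv : ∀ w : Fin 2 → ℤ, ∀ x ∈ sft P, translate w x ∈ sft P := by
    rw [← hSft]; exact sft_inv F P
  have hYclosed : IsClosed Yset := by
    rw [hYeq']
    exact (hXclosed.isCompact.image (continuous_block G Φ)).isClosed
  have hYinv : ∀ v : Fin 2 → ℤ, ∀ y ∈ Yset, translate v y ∈ Yset := by
    intro v y hy
    rw [hYeq'] at hy ⊢
    obtain ⟨x, hx, rfl⟩ := hy
    refine ⟨translate v x, hXinv v x hx, ?_⟩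
    funext w
    simp only [translate, add_assoc]
  refine ⟨Yset, _, ⟨⟨Yset_nonempty, hYclosed, hYinv⟩, m, sft P, ⟨⟨hXne, hXclosed, hXinv⟩, F, P, rfl⟩,
    fun (x : (Fin 2 → ℤ) → Fin m) => fun v : Fin 2 → ℤ =>
      Φ (fun u : G => x ((u : Fin 2 → ℤ) + v)), (continuous_block G Φ).continuousOn, hYeq'.symm, ?_⟩,
    hasEntropy Yset_nonempty (fun z hz t => hYinv t z hz), ?_⟩
  · intro v x _
    funext w
    simp only [translate, add_assoc]
  · intro k X hX hfac
    obtain ⟨⟨hne, hcl, hinv⟩, C, R, hXeq⟩ := hX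
    obtain ⟨φ, hφ, himg, hcomm⟩ := hfac
    obtain ⟨G', Φ', hblock⟩ := exists_block hcl hinv hφ hcomm
    refine ⟨_, hasEntropy hne (fun z hz t => hinv t z hz), ?_⟩
    have hXeq' : X = sft R := hXeq.trans (hSft C R)
    have hYc : Yset = {y | ∃ z ∈ sft R, y = code Φ' z} := by
      rw [← himg, hXeq']
      ext y
      constructor
      · rintro ⟨z, hz, rfl⟩
        refine ⟨z, hz, ?_⟩
        rw [hblock z (by rw [hXeq']; exact hz)]
        rfl
      · rintro ⟨z, hz, rfl⟩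
        refine ⟨z, hz, ?_⟩
        rw [hblock z (by rw [hXeq']; exact hz)]
        rfl
    have hlt := no_cover C R G' Φ' hYc
    rw [hXeq']
    exact hlt

end Pool.Agent.Results.MP_8988f3_an.NoEqualEntropyCover
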